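import Pool.Agent.Helper86.MPT.Most
import Pool.Agent.Helper26.RR.Term

/-!
# Recurrences whose leading form has no zeros on the face: records escape
-/

set_option autoImplicit false

namespace Pool.Agent.Helper86.RC

open MvPolynomial
open Pool.Agent.Helper86.MQ (pm)
open Pool.Agent.Helper86.RR (eval_le)
open Pool.Agent.Helper86.GT (Es)
open Pool.Agent.Helper86.MPT (trapped)
open Pool.Agent.Helper26.RR (sh sh_last sh_castSucc)
open Pool.Agent.Helper26.GT (wd ca)

variable {K : Type*} [Field K] {m d : ℕ}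

/-- The windows are the orbit of the shift map. -/
theorem pm_win (f : MvPolynomial (Fin (m + 1)) K) (a : ℕ → K)
    (ha : ∀ n, a (n + (m + 1)) = eval (fun i : Fin (m + 1) => a (n + i)) f) (n : ℕ) :
    (pm (sh f))^[n] (fun i : Fin (m + 1) => a i) = fun i : Fin (m + 1) => a (n + i) := by
  induction n with
  | zero =>
    funext i
    rw [Nat.zero_add]
    rfl
  | succ n ih =>
    rw [Function.iterate_succ_apply', ih]
    funext i
    rw [pm]
    refine Fin.lastCases ?_ (fun i => ?_) i
    · rw [sh_last, ← ha, Fin.val_last]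
      congr 1
      omega
    · rw [sh_castSucc, eval_X, Fin.val_succ, Fin.val_castSucc]
      congr 1
      omega

omit [Field K] in
/-- Without records above `B` the sequence is bounded by `B`. -/
theorem bounded_of_no_record (v : K → ℝ) (a : ℕ → K) (B : ℝ) (hB : ∀ j, j ≤ m → v (a j) ≤ B)
    (h : ∀ n, ¬ (B < v (a (n + m)) ∧ ∀ i, i < m → v (a (n + i)) ≤ B)) (k : ℕ) : v (a k) ≤ B := by
  induction k using Nat.strong_induction_on with
  | _ k ih =>
    by_cases hk : k ≤ m
    · exact hB k hk
    · by_contra hcon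
      push Not at hcon
      refine h (k - m) ⟨?_, fun i hi => ih _ (by omega)⟩
      rw [show k - m + m = k by omega]
      exact hcon

/-- Large records escape, at an archimedean place. -/
theorem arch_escape (v : AbsoluteValue K ℝ) (hd : 2 ≤ d) {f : MvPolynomial (Fin (m + 1)) K}
    {δ C : ℝ} (hδ : 0 < δ) (hC : 0 ≤ C)
    (h : ∀ x : Fin (m + 1) → K, 1 ≤ v (x (Fin.last m)) → (∀ j, v (x j) ≤ v (x (Fin.last m))) →
      δ * v (x (Fin.last m)) ^ d ≤ v (eval x f) + C * v (x (Fin.last m)) ^ (d - 1))
    (lam R₀ : ℝ) (hlam : 1 ≤ lam) (hR₀ : 1 ≤ R₀) : ∃ M₀ : ℝ, 1 ≤ M₀ ∧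
      ∀ x : Fin (m + 1) → K, M₀ ≤ v (x (Fin.last m)) → (∀ j, v (x j) ≤ v (x (Fin.last m))) →
        Es v lam R₀ (pm (sh f) x) := by
  refine ⟨1 + (C + lam + R₀) / δ, ?_, fun x hx1 hx2 => ?_⟩
  · have : 0 ≤ (C + lam + R₀) / δ := by positivity
    linarith
  · set R := v (x (Fin.last m)) with hR
    have h0 : 0 ≤ (C + lam + R₀) / δ := by positivity
    have hR1 : 1 ≤ R := by linarith
    have hR0 : 0 < R := zero_lt_one.trans_le hR1
    have h1 := h x hR1 hx2
    have h2 : C + lam + R₀ ≤ δ * R := by
      have : (C + lam + R₀) / δ ≤ R := by linarith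
      rw [div_le_iff₀ hδ] at this
      linarith
    have h3 : R ^ d = R ^ (d - 1) * R := by
      rw [← pow_succ]
      congr 1
      omega
    have h4 : R ≤ R ^ (d - 1) := by
      calc R = R ^ 1 := (pow_one _).symm
        _ ≤ R ^ (d - 1) := pow_le_pow_right₀ hR1 (by omega)
    have h5 : R ^ (d - 1) * (lam + R₀) ≤ v (eval x f) := by
      have h6 : R ^ (d - 1) * (C + lam + R₀) ≤ R ^ (d - 1) * (δ * R) :=
        mul_le_mul_of_nonneg_left h2 (by positivity)
      rw [h3] at h1
      nlinarith
    have hlast : pm (sh f) x (Fin.last m) = eval x f := by rw [pm, sh_last]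
    refine ⟨?_, fun i => ?_⟩
    · rw [hlast]
      refine le_trans ?_ h5
      nlinarith
    · rw [hlast]
      have h6 : pm (sh f) x i.castSucc = x i.succ := by rw [pm, sh_castSucc, eval_X]
      rw [h6]
      refine le_trans ?_ h5
      calc lam * v (x i.succ) ≤ lam * R := mul_le_mul_of_nonneg_left (hx2 _) (by linarith)
        _ ≤ lam * R ^ (d - 1) := mul_le_mul_of_nonneg_left h4 (by linarith)
        _ ≤ R ^ (d - 1) * (lam + R₀) := by nlinarith [pow_pos hR0 (d - 1)]

theorem nonarch_sum_lt (v : AbsoluteValue K ℝ) (hv : IsNonarchimedean v) {ι : Type*}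
    (s : Finset ι) (g : ι → K) {B : ℝ} (hB : 0 < B) (h : ∀ i ∈ s, v (g i) < B) :
    v (∑ i ∈ s, g i) < B := by
  classical
  induction s using Finset.induction_on with
  | empty => simpa using hB
  | insert i s hi ih =>
    rw [Finset.sum_insert hi]
    refine lt_of_le_of_lt (hv _ _) (max_lt (h i (Finset.mem_insert_self _ _)) ?_)
    exact ih fun j hj => h j (Finset.mem_insert_of_mem hj)

/-- The value of the recurrence at a strict record, at a nonarchimedean place. -/
theorem nonarch_eval (v : AbsoluteValue K ℝ) (hv : IsNonarchimedean v)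
    {f : MvPolynomial (Fin (m + 1)) K} (hf : f.totalDegree ≤ d) (hint : ∀ s, v (coeff s f) ≤ 1)
    (htop : v (coeff (Finsupp.single (Fin.last m) d) f) = 1) (x : Fin (m + 1) → K)
    (h1 : 1 < v (x (Fin.last m))) (hlt : ∀ i : Fin m, v (x i.castSucc) < v (x (Fin.last m))) :
    v (eval x f) = v (x (Fin.last m)) ^ d := by
  classical
  set R := v (x (Fin.last m)) with hR
  have hR0 : 0 < R := by linarith
  have hmem : Finsupp.single (Fin.last m) d ∈ f.support := by
    rw [mem_support_iff]
    intro h0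
    rw [h0, map_zero] at htop
    exact zero_ne_one htop
  have hall : ∀ j, v (x j) ≤ R := fun j => Fin.lastCases le_rfl (fun i => (hlt i).le) j
  rw [eval_eq', ← Finset.add_sum_erase _ _ hmem]
  have hprod : ∏ j, x j ^ (Finsupp.single (Fin.last m) d : Fin (m + 1) →₀ ℕ) j =
      x (Fin.last m) ^ d := by
    rw [Finset.prod_eq_single (Fin.last m)]
    · simp
    · intro b _ hb
      simp [hb.symm]
    · simp
  rw [hprod]
  set A := coeff (Finsupp.single (Fin.last m) d) f * x (Fin.last m) ^ d with hA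
  set Z := ∑ s ∈ f.support.erase (Finsupp.single (Fin.last m) d), coeff s f * ∏ j, x j ^ s j
    with hZ
  have hAv : v A = R ^ d := by rw [hA, map_mul, map_pow, htop, one_mul]
  have hZv : v Z < R ^ d := by
    refine nonarch_sum_lt v hv _ _ (by positivity) fun s hs => ?_
    rw [Finset.mem_erase] at hs
    have hdeg : s.degree ≤ d := (le_totalDegree hs.2).trans hf
    rw [map_mul, map_prod]
    have h2 : ∏ j, v (x j ^ s j) < R ^ d := by
      rw [Fin.prod_univ_castSucc]
      by_cases hex : ∃ i : Fin m, s i.castSucc ≠ 0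
      · obtain ⟨i₀, hi₀⟩ := hex
        -- a strict factor
        have h3 : ∏ i : Fin m, v (x i.castSucc ^ s i.castSucc) <
            ∏ i : Fin m, R ^ s i.castSucc ∨ ∏ i : Fin m, v (x i.castSucc ^ s i.castSucc) = 0 := by
          by_cases h0 : ∏ i : Fin m, v (x i.castSucc ^ s i.castSucc) = 0
          · exact Or.inr h0
          · left
            rw [Finset.prod_eq_zero_iff] at h0
            push Not at h0
            refine Finset.prod_lt_prod (fun i hi => ?_) (fun i hi => ?_) ⟨i₀, Finset.mem_univ _, ?_⟩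
            · exact lt_of_le_of_ne (v.nonneg _) (h0 i hi).symm
            · rw [map_pow]
              exact pow_le_pow_left₀ (v.nonneg _) (hlt i).le _
            · rw [map_pow]
              exact pow_lt_pow_left₀ (hlt i₀) (v.nonneg _) hi₀
        have h4 : (∏ i : Fin m, R ^ s i.castSucc) * R ^ s (Fin.last m) ≤ R ^ d := by
          rw [← Fin.prod_univ_castSucc (fun j => R ^ s j), Finset.prod_pow_eq_pow_sum,
            ← Finsupp.degree_eq_sum]
          exact pow_le_pow_right₀ h1.le hdeg
        rcases h3 with h3 | h3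
        · refine lt_of_lt_of_le ?_ h4
          rw [map_pow]
          exact mul_lt_mul_of_pos_right h3 (by positivity)
        · rw [h3, zero_mul]
          positivity
      · push Not at hex
        rw [Finset.prod_eq_one fun i _ => by rw [hex i, pow_zero, map_one], one_mul, map_pow]
        have h3 : s.degree = s (Fin.last m) := by
          rw [Finsupp.degree_eq_sum, Fin.sum_univ_castSucc,
            Finset.sum_eq_zero fun i _ => hex i, zero_add]
        have h4 : s (Fin.last m) < d := by
          rcases lt_or_eq_of_le (h3 ▸ hdeg : s (Fin.last m) ≤ d) with h5 | h5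
          · exact h5
          · exfalso
            apply hs.1
            ext j
            refine Fin.lastCases ?_ (fun i => ?_) j
            · simp [h5]
            · rw [hex i, Finsupp.single_apply, if_neg (Fin.castSucc_lt_last i).ne']
        exact pow_lt_pow_right₀ h1 h4
    calc v (coeff s f) * ∏ j, v (x j ^ s j) ≤ 1 * ∏ j, v (x j ^ s j) :=
          mul_le_mul_of_nonneg_right (hint s) (Finset.prod_nonneg fun j _ => v.nonneg _)
      _ = ∏ j, v (x j ^ s j) := one_mul _
      _ < R ^ d := h2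
  refine le_antisymm ?_ ?_
  · refine (hv _ _).trans (max_le hAv.le hZv.le)
  · rw [← hAv]
    have h2 : A = (A + Z) + (-Z) := by ring
    have h3 : v A ≤ max (v (A + Z)) (v (-Z)) := by
      conv_lhs => rw [h2]
      exact hv _ _
    rcases le_max_iff.1 h3 with h4 | h4
    · exact h4
    · rw [map_neg_eq_map, hAv] at h4
      exact absurd h4 (not_le.2 hZv)

/-- Strict records escape, at a nonarchimedean place. -/
theorem nonarch_escape (v : AbsoluteValue K ℝ) (hv : IsNonarchimedean v) (hd : 2 ≤ d)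
    {f : MvPolynomial (Fin (m + 1)) K} (hf : f.totalDegree ≤ d) (hint : ∀ s, v (coeff s f) ≤ 1)
    (htop : v (coeff (Finsupp.single (Fin.last m) d) f) = 1) (x : Fin (m + 1) → K)
    (h1 : 1 < v (x (Fin.last m))) (hlt : ∀ i : Fin m, v (x i.castSucc) < v (x (Fin.last m)))
    (lam R₀ : ℝ) : ∃ n, Es v lam R₀ ((pm (sh f))^[n] x) := by
  set R := v (x (Fin.last m)) with hR
  have hR0 : 0 < R := by linarith
  have hone : ∀ y : Fin (m + 1) → K, 1 < v (y (Fin.last m)) →
      (∀ i : Fin m, v (y i.castSucc) < v (y (Fin.last m))) →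
      v (pm (sh f) y (Fin.last m)) = v (y (Fin.last m)) ^ d ∧
      ∀ i : Fin m, v (pm (sh f) y i.castSucc) ≤ v (y (Fin.last m)) := by
    intro y hy1 hy2
    refine ⟨?_, fun i => ?_⟩
    · rw [pm, sh_last]
      exact nonarch_eval v hv hf hint htop y hy1 hy2
    · rw [pm, sh_castSucc, eval_X]
      exact Fin.lastCases (motive := fun j => v (y j) ≤ v (y (Fin.last m))) le_rfl
        (fun i => (hy2 i).le) i.succ
  have key : ∀ n, v ((pm (sh f))^[n] x (Fin.last m)) = R ^ d ^ n ∧
      ∀ i : Fin m, v ((pm (sh f))^[n] x i.castSucc) < v ((pm (sh f))^[n] x (Fin.last m)) := by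
    intro n
    induction n with
    | zero =>
      rw [pow_zero, pow_one]
      exact ⟨rfl, hlt⟩
    | succ n ih =>
      obtain ⟨h2, h3⟩ := ih
      have hpos : 1 ≤ d ^ n := Nat.one_le_pow _ _ (by omega)
      have h4 : 1 < v ((pm (sh f))^[n] x (Fin.last m)) := by
        rw [h2]
        exact one_lt_pow₀ h1 (by omega)
      obtain ⟨h5, h6⟩ := hone _ h4 h3
      rw [← Function.iterate_succ_apply' (pm (sh f))] at h5 h6
      refine ⟨by rw [h5, h2, ← pow_mul, ← pow_succ], fun i => ?_⟩
      rw [h5]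
      refine (h6 i).trans_lt ?_
      calc v ((pm (sh f))^[n] x (Fin.last m)) = v ((pm (sh f))^[n] x (Fin.last m)) ^ 1 :=
            (pow_one _).symm
        _ < v ((pm (sh f))^[n] x (Fin.last m)) ^ d := pow_lt_pow_right₀ h4 (by omega)
  obtain ⟨k, hk⟩ := pow_unbounded_of_one_lt (max lam R₀) h1
  have hkd : k ≤ d ^ k := (Nat.lt_pow_self (by omega)).le
  have hRk : max lam R₀ ≤ R ^ d ^ k := hk.le.trans (pow_le_pow_right₀ h1.le hkd)
  have h4 : 1 < v ((pm (sh f))^[k] x (Fin.last m)) := by
    rw [(key k).1]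
    have hpos : 1 ≤ d ^ k := Nat.one_le_pow _ _ (by omega)
    exact one_lt_pow₀ h1 (by omega)
  obtain ⟨h5, h6⟩ := hone _ h4 (key k).2
  rw [← Function.iterate_succ_apply' (pm (sh f)), (key k).1] at h5 h6
  have hA1 : 1 ≤ R ^ d ^ k := one_le_pow₀ h1.le
  have h7 : (R ^ d ^ k) ^ 2 ≤ (R ^ d ^ k) ^ d := pow_le_pow_right₀ hA1 hd
  refine ⟨k + 1, ?_, fun i => ?_⟩
  · rw [h5]
    have h8 : R₀ ≤ R ^ d ^ k := (le_max_right _ _).trans hRk
    nlinarith
  · rw [h5]
    have h8 : lam ≤ R ^ d ^ k := (le_max_left _ _).trans hRk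
    refine le_trans ?_ h7
    calc lam * v ((pm (sh f))^[k + 1] x i.castSucc) ≤
          R ^ d ^ k * v ((pm (sh f))^[k + 1] x i.castSucc) :=
          mul_le_mul_of_nonneg_right h8 (v.nonneg _)
      _ ≤ R ^ d ^ k * R ^ d ^ k := mul_le_mul_of_nonneg_left (h6 i) (by linarith)
      _ = (R ^ d ^ k) ^ 2 := by ring

end Pool.Agent.Helper86.RC
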