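import Pool.Agent.Helper86.RC.Escape

/-!
# The face condition
-/

set_option autoImplicit false

namespace Pool.Agent.Helper86.RC

open MvPolynomial NumberField
open Pool.Agent.Helper86.MQ (pm)
open Pool.Agent.Helper86.RR (eval_le)
open Pool.Agent.Helper86.GT (Es)
open Pool.Agent.Helper26.RR (sh sh_last sh_castSucc)

variable {K : Type*} [Field K] {m d : ℕ}

theorem eval_smul_homog {R : Type*} [CommRing R] {G : MvPolynomial (Fin (m + 1)) R}
    (hG : G.IsHomogeneous d) (c : R) (t : Fin (m + 1) → R) :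
    eval (fun i => c * t i) G = c ^ d * eval t G := by
  rw [eval_eq', eval_eq', Finset.mul_sum]
  refine Finset.sum_congr rfl fun s hs => ?_
  have hdeg : s.degree = d := by
    by_contra h
    exact mem_support_iff.1 hs (hG.coeff_eq_zero h)
  have h1 : ∏ i, (c * t i) ^ s i = c ^ d * ∏ i, t i ^ s i := by
    simp only [mul_pow]
    rw [Finset.prod_mul_distrib, Finset.prod_pow_eq_pow_sum, ← Finsupp.degree_eq_sum, hdeg]
  rw [h1]
  ring

theorem eval_map_comp {R S : Type*} [CommRing R] [CommRing S] (σ : R →+* S)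
    (G : MvPolynomial (Fin (m + 1)) R) (x : Fin (m + 1) → R) :
    eval (fun i => σ (x i)) (MvPolynomial.map σ G) = σ (eval x G) := by
  rw [eval_map]
  have := MvPolynomial.eval₂_comp_left σ (RingHom.id R) x G
  rw [eval₂_id, RingHom.comp_id] at this
  exact this.symm

/-- The lower bound of the leading form. -/
theorem face_lower (σ : K →+* ℂ) (g : MvPolynomial (Fin (m + 1)) K) (hg : g.IsHomogeneous d)
    (hface : ∀ t : Fin (m + 1) → ℂ, (∀ i, ‖t i‖ ≤ 1) → t (Fin.last m) = 1 →
      (ComplexEmbedding.IsReal σ → ∀ i, (t i).im = 0) → eval t (MvPolynomial.map σ g) ≠ 0) :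
    ∃ δ : ℝ, 0 < δ ∧ ∀ x : Fin (m + 1) → K, 0 < ‖σ (x (Fin.last m))‖ →
      (∀ j, ‖σ (x j)‖ ≤ ‖σ (x (Fin.last m))‖) →
        δ * ‖σ (x (Fin.last m))‖ ^ d ≤ ‖σ (eval x g)‖ := by
  classical
  set S : Set (Fin (m + 1) → ℂ) := {t | (∀ i, ‖t i‖ ≤ 1) ∧ t (Fin.last m) = 1 ∧
    (ComplexEmbedding.IsReal σ → ∀ i, (t i).im = 0)} with hS
  have hcl : IsClosed S := by
    have h1 : IsClosed {t : Fin (m + 1) → ℂ | ∀ i, ‖t i‖ ≤ 1} := by
      rw [Set.ofPred_forall]
      exact isClosed_iInter fun i => isClosed_le (continuous_apply i).norm continuous_const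
    have h2 : IsClosed {t : Fin (m + 1) → ℂ | t (Fin.last m) = 1} :=
      isClosed_eq (continuous_apply _) continuous_const
    have h3 : IsClosed {t : Fin (m + 1) → ℂ | ComplexEmbedding.IsReal σ → ∀ i, (t i).im = 0} := by
      by_cases hr : ComplexEmbedding.IsReal σ
      · simp only [hr, true_imp_iff]
        rw [Set.ofPred_forall]
        exact isClosed_iInter fun i =>
          isClosed_eq (Complex.continuous_im.comp (continuous_apply i)) continuous_const
      · simp only [hr, false_imp_iff]
        exact isClosed_univ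
    have h4 : S = {t | ∀ i, ‖t i‖ ≤ 1} ∩ ({t | t (Fin.last m) = 1} ∩
        {t | ComplexEmbedding.IsReal σ → ∀ i, (t i).im = 0}) := rfl
    rw [h4]
    exact h1.inter (h2.inter h3)
  have hcomp : IsCompact S := by
    refine (isCompact_univ_pi fun _ : Fin (m + 1) =>
      isCompact_closedBall (0 : ℂ) 1).of_isClosed_subset hcl ?_
    intro t ht i _
    rw [Metric.mem_closedBall, dist_zero_right]
    exact ht.1 i
  have hne : S.Nonempty := by
    refine ⟨Pi.single (Fin.last m) 1, fun i => ?_, by simp, fun _ i => ?_⟩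
    · by_cases h : i = Fin.last m
      · subst h
        simp
      · rw [Pi.single_eq_of_ne h, norm_zero]
        exact zero_le_one
    · by_cases h : i = Fin.last m
      · subst h
        simp
      · rw [Pi.single_eq_of_ne h]
        simp
  obtain ⟨t₀, ht₀, hmin⟩ := hcomp.exists_isMinOn hne
    (f := fun t => ‖eval t (MvPolynomial.map σ g)‖)
    (MvPolynomial.continuous_eval _).norm.continuousOn
  refine ⟨‖eval t₀ (MvPolynomial.map σ g)‖, norm_pos_iff.2 (hface t₀ ht₀.1 ht₀.2.1 ht₀.2.2),
    fun x hx0 hx => ?_⟩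
  have hc0 : σ (x (Fin.last m)) ≠ 0 := norm_pos_iff.1 hx0
  set t : Fin (m + 1) → ℂ := fun i => σ (x i) / σ (x (Fin.last m)) with ht
  have htS : t ∈ S := by
    refine ⟨fun i => ?_, ?_, fun hr i => ?_⟩
    · rw [ht]
      dsimp only
      rw [norm_div]
      exact (div_le_one hx0).2 (hx i)
    · rw [ht]
      exact div_self hc0
    · have h1 : ∀ y : K, (σ y).im = 0 := by
        intro y
        have h2 := RingHom.congr_fun hr y
        rw [ComplexEmbedding.conjugate_coe_eq] at h2
        exact Complex.conj_eq_iff_im.1 h2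
      rw [ht]
      dsimp only
      rw [← map_div₀]
      exact h1 _
  have h1 : ‖eval t₀ (MvPolynomial.map σ g)‖ ≤ ‖eval t (MvPolynomial.map σ g)‖ := hmin htS
  have h2 : σ (eval x g) = σ (x (Fin.last m)) ^ d * eval t (MvPolynomial.map σ g) := by
    rw [← eval_smul_homog (hg.map σ), ← eval_map_comp]
    congr 2
    funext i
    rw [ht]
    dsimp only
    field_simp
  rw [h2, norm_mul, norm_pow, mul_comm]
  exact mul_le_mul_of_nonneg_left h1 (by positivity)

/-- The lower order terms. -/
theorem sub_totalDegree_le {R : Type*} [CommRing R] (hd : 1 ≤ d)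
    {f : MvPolynomial (Fin (m + 1)) R} (hf : f.totalDegree ≤ d) :
    (f - homogeneousComponent d f).totalDegree ≤ d - 1 := by
  rw [totalDegree]
  refine Finset.sup_le fun s hs => ?_
  rw [mem_support_iff, coeff_sub, coeff_homogeneousComponent] at hs
  have h1 : s.degree ≠ d := by
    intro h
    rw [if_pos h, sub_self] at hs
    exact hs rfl
  rw [if_neg h1, sub_zero] at hs
  have h2 : s.degree ≤ d := (le_totalDegree (mem_support_iff.2 hs)).trans hf
  have h3 : s.sum (fun _ e => e) = s.degree := rfl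
  omega

end Pool.Agent.Helper86.RC
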