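import Pool.Agent.Helper86.RC.Face
import Pool.Agent.Helper87.GT.Down

/-!
# Recurrences over number fields whose leading form has no zeros on the face
-/

set_option autoImplicit false

namespace Pool.Agent.Helper86.RC

open MvPolynomial NumberField IsDedekindDomain
open Pool.Agent.Helper86.MQ (pm)
open Pool.Agent.Helper86.RR (eval_le)
open Pool.Agent.Helper86.GT (Es)
open Pool.Agent.Helper86.MPT (trapped)
open Pool.Agent.Helper26.RR (sh sh_last sh_castSucc)
open Pool.Agent.Helper26.GT (wd ca)

section

variable {K : Type*} [Field K] {m d : ℕ}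

/-- An absolute value at which the orbit enters the region of all radii makes the return sets
finite. -/
theorem finite_of_escape (v : AbsoluteValue K ℝ) (hd : 2 ≤ d)
    {f : MvPolynomial (Fin (m + 1)) K} (hf : f.totalDegree ≤ d)
    (hA : coeff (Finsupp.single (Fin.last m) d) f ≠ 0)
    (hb : coeff (Finsupp.single 0 1 + Finsupp.single (Fin.last m) (d - 1)) f ≠ 0)
    (x : Fin (m + 1) → K) (hesc : ∀ lam R₀ : ℝ, 1 ≤ lam → 1 ≤ R₀ →
      ∃ n, Es v lam R₀ ((pm (sh f))^[n] x)) {F : MvPolynomial (Fin (m + 1)) K} (hF : F ≠ 0) :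
    {n | eval ((pm (sh f))^[n] x) F = 0}.Finite := by
  have deg : ∀ i, (sh f i).totalDegree ≤ wd d 1 i := by
    intro i
    refine Fin.lastCases ?_ (fun i => ?_) i
    · rw [wd, if_pos rfl, sh_last]
      exact hf
    · rw [wd, if_neg (Fin.castSucc_lt_last i).ne, sh_castSucc, totalDegree_X]
  have top : ca d (sh f) ≠ 0 := by
    rw [ca, sh_last]
    exact hA
  obtain ⟨lam, R₀, h1, h2, h3⟩ := trapped v hd (by omega) deg top
  obtain ⟨k, hk⟩ := Pool.Agent.Helper26.RR.term hd hf hA hb hF
  exact h3 x (hesc lam R₀ h1 h2) F k hk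

end

section

variable {K : Type*} [Field K] [NumberField K] {m d : ℕ}

omit [NumberField K] in
/-- Either all return sets are finite or the sequence is bounded at the archimedean place. -/
theorem arch_alt (hd : 2 ≤ d) {f : MvPolynomial (Fin (m + 1)) K} (hf : f.totalDegree ≤ d)
    (hA : coeff (Finsupp.single (Fin.last m) d) f ≠ 0)
    (hb : coeff (Finsupp.single 0 1 + Finsupp.single (Fin.last m) (d - 1)) f ≠ 0)
    (σ : K →+* ℂ)
    (hface : ∀ t : Fin (m + 1) → ℂ, (∀ i, ‖t i‖ ≤ 1) → t (Fin.last m) = 1 →
      (ComplexEmbedding.IsReal σ → ∀ i, (t i).im = 0) →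
        eval t (MvPolynomial.map σ (homogeneousComponent d f)) ≠ 0)
    (a : ℕ → K) (ha : ∀ n, a (n + (m + 1)) = eval (fun i : Fin (m + 1) => a (n + i)) f) :
    (∀ F : MvPolynomial (Fin (m + 1)) K, F ≠ 0 →
      {n : ℕ | eval (fun i : Fin (m + 1) => a (n + i)) F = 0}.Finite) ∨
      ∃ B : ℝ, ∀ k, ‖σ (a k)‖ ≤ B := by
  classical
  obtain ⟨δ, hδ, hlow⟩ := face_lower σ (homogeneousComponent d f)
    (homogeneousComponent_isHomogeneous d f) hface
  set v : AbsoluteValue K ℝ := NumberField.place σ with hv
  have hvσ : ∀ y, v y = ‖σ y‖ := fun y => rfl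
  set g := f - homogeneousComponent d f with hg
  set C : ℝ := ∑ e ∈ g.support, v (coeff e g) with hC
  have hC0 : 0 ≤ C := Finset.sum_nonneg fun e _ => v.nonneg _
  have h : ∀ x : Fin (m + 1) → K, 1 ≤ v (x (Fin.last m)) → (∀ j, v (x j) ≤ v (x (Fin.last m))) →
      δ * v (x (Fin.last m)) ^ d ≤ v (eval x f) + C * v (x (Fin.last m)) ^ (d - 1) := by
    intro x hx1 hx
    have h1 := hlow x (by rw [← hvσ]; linarith) hx
    have h2 := eval_le v (sub_totalDegree_le (by omega) hf) x _ hx1 hx
    have h3 : eval x (homogeneousComponent d f) = eval x f - eval x g := by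
      rw [hg, map_sub]
      ring
    rw [h3, ← hvσ, ← hvσ] at h1
    have h4 : v (eval x f - eval x g) ≤ v (eval x f) + v (eval x g) := by
      rw [sub_eq_add_neg]
      refine (v.add_le _ _).trans ?_
      rw [map_neg_eq_map]
    linarith
  by_cases hrec : ∀ lam R₀ : ℝ, 1 ≤ lam → 1 ≤ R₀ →
      ∃ n, Es v lam R₀ ((pm (sh f))^[n] (fun i : Fin (m + 1) => a i))
  · left
    intro F hF
    have h1 := finite_of_escape v hd hf hA hb _ hrec hF
    simp only [pm_win f a ha] at h1
    exact h1
  · right
    push Not at hrec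
    obtain ⟨lam, R₀, hlam, hR₀, hno⟩ := hrec
    obtain ⟨M₀, hM₀, hM⟩ := arch_escape v hd hδ hC0 h lam R₀ hlam hR₀
    refine ⟨max M₀ (∑ j ∈ Finset.range (m + 1), v (a j)), fun k => ?_⟩
    refine bounded_of_no_record (m := m) (fun y => v y) a _ (fun j hj => ?_) (fun n hn => ?_) k
    · refine le_trans ?_ (le_max_right _ _)
      exact Finset.single_le_sum (f := fun j => v (a j)) (fun j _ => v.nonneg _)
        (Finset.mem_range.2 (by omega))
    · obtain ⟨h1, h2⟩ := hn
      refine hno (n + 1) ?_
      rw [Function.iterate_succ_apply', pm_win f a ha]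
      refine hM _ ?_ fun j => ?_
      · rw [Fin.val_last]
        exact (le_max_left _ _).trans h1.le
      · rw [Fin.val_last]
        rcases Nat.lt_or_ge (j : ℕ) m with hj | hj
        · exact (h2 j hj).trans h1.le
        · have : (j : ℕ) = m := by have := j.2; omega
          rw [this]

omit [NumberField K] in
/-- Either all return sets are finite or the sequence is bounded at the nonarchimedean place. -/
theorem nonarch_alt (hd : 2 ≤ d) {f : MvPolynomial (Fin (m + 1)) K} (hf : f.totalDegree ≤ d)
    (hb : coeff (Finsupp.single 0 1 + Finsupp.single (Fin.last m) (d - 1)) f ≠ 0)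
    (v : AbsoluteValue K ℝ) (hv : IsNonarchimedean v) (hint : ∀ s, v (coeff s f) ≤ 1)
    (htop : v (coeff (Finsupp.single (Fin.last m) d) f) = 1)
    (a : ℕ → K) (ha : ∀ n, a (n + (m + 1)) = eval (fun i : Fin (m + 1) => a (n + i)) f) (B : ℝ)
    (hB1 : 1 ≤ B) (hB : ∀ j, j ≤ m → v (a j) ≤ B) :
    (∀ F : MvPolynomial (Fin (m + 1)) K, F ≠ 0 →
      {n : ℕ | eval (fun i : Fin (m + 1) => a (n + i)) F = 0}.Finite) ∨ ∀ k, v (a k) ≤ B := by
  classical
  have hA : coeff (Finsupp.single (Fin.last m) d) f ≠ 0 := by
    intro h0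
    rw [h0, map_zero] at htop
    exact zero_ne_one htop
  by_cases hrec : ∃ n, B < v (a (n + m)) ∧ ∀ i, i < m → v (a (n + i)) ≤ B
  · left
    obtain ⟨n, h1, h2⟩ := hrec
    intro F hF
    have h3 : ∀ lam R₀ : ℝ, 1 ≤ lam → 1 ≤ R₀ →
        ∃ n, Es v lam R₀ ((pm (sh f))^[n] (fun i : Fin (m + 1) => a i)) := by
      intro lam R₀ _ _
      obtain ⟨k, hk⟩ := nonarch_escape v hv hd hf hint htop (fun i : Fin (m + 1) => a (n + i))
        (by rw [Fin.val_last]; linarith) (fun i => by
          rw [Fin.val_last, Fin.val_castSucc]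
          exact (h2 i i.2).trans_lt h1) lam R₀
      refine ⟨k + n, ?_⟩
      rw [Function.iterate_add_apply, pm_win f a ha]
      exact hk
    have h4 := finite_of_escape v hd hf hA hb _ h3 hF
    simp only [pm_win f a ha] at h4
    exact h4
  · right
    push Not at hrec
    refine bounded_of_no_record (m := m) (fun y => v y) a B hB (fun n hn => ?_)
    obtain ⟨i, hi1, hi2⟩ := hrec n hn.1
    exact absurd (hn.2 i hi1) (not_le.2 hi2)

omit [Field K] [NumberField K] in
/-- A sequence with finitely many values which satisfies a recurrence is eventually periodic. -/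
theorem periodic_of_finite (g : (Fin (m + 1) → K) → K) (a : ℕ → K)
    (ha : ∀ n, a (n + (m + 1)) = g (fun i : Fin (m + 1) => a (n + i))) (hfin : (Set.range a).Finite) :
    ∃ M, 0 < M ∧ ∃ n₀, ∀ n, n₀ ≤ n → a (n + M) = a n := by
  classical
  have h1 : (Set.pi Set.univ fun _ : Fin (m + 1) => Set.range a).Finite := Set.Finite.pi fun _ => hfin
  have h2 : ∀ n : ℕ, (fun i : Fin (m + 1) => a (n + i)) ∈
      Set.pi Set.univ fun _ : Fin (m + 1) => Set.range a := fun n i _ => ⟨n + i, rfl⟩
  obtain ⟨i, -, j, -, hij, heq⟩ := Set.infinite_univ.exists_lt_map_eq_of_mapsTo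
    (fun n _ => h2 n) h1
  have key : ∀ k, ∀ l : Fin (m + 1), a (i + k + l) = a (j + k + l) := by
    intro k
    induction k with
    | zero => exact fun l => congrFun heq l
    | succ k ih =>
      intro l
      by_cases hl : (l : ℕ) < m
      · have := ih ⟨l + 1, by omega⟩
        simp only at this
        rw [show i + (k + 1) + (l : ℕ) = i + k + ((l : ℕ) + 1) by omega,
          show j + (k + 1) + (l : ℕ) = j + k + ((l : ℕ) + 1) by omega]
        exact this
      · have hl' : (l : ℕ) = m := by have := l.2; omega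
        rw [hl', show i + (k + 1) + m = (i + k) + (m + 1) by omega,
          show j + (k + 1) + m = (j + k) + (m + 1) by omega, ha, ha]
        congr 1
        funext l
        exact ih l
  refine ⟨j - i, by omega, i, fun n hn => ?_⟩
  have h3 := key (n - i) 0
  rw [Fin.val_zero, add_zero, add_zero] at h3
  rw [show n + (j - i) = j + (n - i) by omega, ← h3]
  congr 1
  omega

theorem adic_le_one_iff (v : HeightOneSpectrum (𝓞 K)) (y : K) :
    NumberField.HeightOneSpectrum.adicAbv K v y ≤ 1 ↔ v.valuation K y ≤ 1 := by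
  rw [NumberField.HeightOneSpectrum.adicAbv_def, ← NNReal.coe_one, NNReal.coe_le_coe]
  exact WithZeroMulInt.toNNReal_le_one_iff (NumberField.HeightOneSpectrum.one_lt_absNorm_nnreal v)

theorem adic_int (v : HeightOneSpectrum (𝓞 K)) (r : 𝓞 K) :
    NumberField.HeightOneSpectrum.adicAbv K v (algebraMap (𝓞 K) K r) ≤ 1 := by
  rw [← FinitePlace.norm_embedding]
  exact FinitePlace.norm_le_one K v r

theorem adic_eq_one (v : HeightOneSpectrum (𝓞 K)) (r : 𝓞 K) :
    NumberField.HeightOneSpectrum.adicAbv K v (algebraMap (𝓞 K) K r) = 1 ↔ r ∉ v.asIdeal := by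
  rw [← FinitePlace.norm_embedding]
  exact FinitePlace.norm_eq_one_iff_notMem K v r

omit [NumberField K] in
theorem nonarch_integral {f : MvPolynomial (Fin (m + 1)) K} (v : AbsoluteValue K ℝ)
    (hv : IsNonarchimedean v) (hint : ∀ s, v (coeff s f) ≤ 1)
    (a : ℕ → K) (ha : ∀ n, a (n + (m + 1)) = eval (fun i : Fin (m + 1) => a (n + i)) f)
    (h : ∀ j, j ≤ m → v (a j) ≤ 1) (k : ℕ) : v (a k) ≤ 1 := by
  induction k using Nat.strong_induction_on with
  | _ k ih =>
    by_cases hk : k ≤ m
    · exact h k hk
    · obtain ⟨n, rfl⟩ : ∃ n, k = n + (m + 1) := ⟨k - (m + 1), by omega⟩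
      rw [ha, eval_eq']
      have h1 : ∀ (s : Finset (Fin (m + 1) →₀ ℕ)),
          v (∑ d ∈ s, coeff d f * ∏ i : Fin (m + 1), a (n + i) ^ d i) ≤ 1 := by
        classical
        intro s
        induction s using Finset.induction_on with
        | empty => simp
        | insert e s he ih2 =>
          rw [Finset.sum_insert he]
          refine (hv _ _).trans (max_le ?_ ih2)
          rw [map_mul, map_prod]
          have h2 : ∏ i : Fin (m + 1), v (a (n + i) ^ e i) ≤ 1 := by
            refine Finset.prod_le_one (fun i _ => v.nonneg _) fun i _ => ?_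
            rw [map_pow]
            exact pow_le_one₀ (v.nonneg _) (ih _ (by have := i.2; omega))
          calc v (coeff e f) * ∏ i : Fin (m + 1), v (a (n + i) ^ e i) ≤ 1 * 1 :=
                mul_le_mul (hint e) h2 (Finset.prod_nonneg fun i _ => v.nonneg _) zero_le_one
            _ = 1 := one_mul _
      exact h1 _

/-- **Main theorem.** -/
theorem rc_main (hd : 2 ≤ d) (f : MvPolynomial (Fin (m + 1)) (𝓞 K)) (hf : f.totalDegree ≤ d)
    (hface : ∀ (σ : K →+* ℂ) (t : Fin (m + 1) → ℂ), (∀ i, ‖t i‖ ≤ 1) → t (Fin.last m) = 1 →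
      (ComplexEmbedding.IsReal σ → ∀ i, (t i).im = 0) →
        eval t (MvPolynomial.map (σ.comp (algebraMap (𝓞 K) K)) (homogeneousComponent d f)) ≠ 0)
    (hb : coeff (Finsupp.single 0 1 + Finsupp.single (Fin.last m) (d - 1)) f ≠ 0)
    (a : ℕ → K) (ha : ∀ n, a (n + (m + 1)) = aeval (fun i : Fin (m + 1) => a (n + i)) f)
    (c : 𝓞 K) (hc0 : c ≠ 0) (hc : IsCoprime c (coeff (Finsupp.single (Fin.last m) d) f))
    (hint : ∀ i, i ≤ m → ∃ b : 𝓞 K, (b : K) = c * a i) (τ : K →+* ℂ) :
    (∃ M, 0 < M ∧ ∃ n₀, ∀ n, n₀ ≤ n → a (n + M) = a n) ∨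
      ∀ F : MvPolynomial (Fin (m + 1)) ℂ, F ≠ 0 →
        {n : ℕ | eval (fun i : Fin (m + 1) => τ (a (n + i))) F = 0}.Finite := by
  classical
  have hinj : Function.Injective (algebraMap (𝓞 K) K) := FaithfulSMul.algebraMap_injective (𝓞 K) K
  set fK : MvPolynomial (Fin (m + 1)) K := MvPolynomial.map (algebraMap (𝓞 K) K) f with hfK
  have hfK' : fK.totalDegree ≤ d := (Finset.sup_mono (support_map_subset _ _)).trans hf
  have haK : ∀ n, a (n + (m + 1)) = eval (fun i : Fin (m + 1) => a (n + i)) fK := by
    intro n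
    rw [ha, hfK, eval_map, aeval_def]
  have hA0 : coeff (Finsupp.single (Fin.last m) d) f ≠ 0 := by
    intro h0
    obtain ⟨σ⟩ : Nonempty (K →+* ℂ) := inferInstance
    refine hface σ (Pi.single (Fin.last m) 1) (fun i => ?_) (by simp) (fun _ i => ?_) ?_
    · by_cases h : i = Fin.last m
      · subst h
        simp
      · rw [Pi.single_eq_of_ne h, norm_zero]
        exact zero_le_one
    · by_cases h : i = Fin.last m
      · subst h
        simp
      · rw [Pi.single_eq_of_ne h]
        simp
    · rw [eval_map, eval₂_eq']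
      refine Finset.sum_eq_zero fun s hs => ?_
      by_cases hs1 : s = Finsupp.single (Fin.last m) d
      · rw [hs1, coeff_homogeneousComponent, if_pos (Finsupp.degree_single _ _), h0, map_zero,
          zero_mul]
      · have hdeg : s.degree = d := by
          by_contra h
          rw [mem_support_iff, coeff_homogeneousComponent, if_neg h] at hs
          exact hs rfl
        obtain ⟨j, hj, hj0⟩ : ∃ j, j ≠ Fin.last m ∧ s j ≠ 0 := by
          by_contra hcon
          push Not at hcon
          apply hs1
          rw [Finsupp.degree_eq_sum, Fin.sum_univ_castSucc, Finset.sum_eq_zero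
            fun i _ => hcon _ (Fin.castSucc_lt_last i).ne, zero_add] at hdeg
          ext j
          by_cases h : j = Fin.last m
          · rw [h, hdeg, Finsupp.single_eq_same]
          · rw [hcon j h, Finsupp.single_apply, if_neg (Ne.symm h)]
        rw [Finset.prod_eq_zero (Finset.mem_univ j), mul_zero]
        rw [Pi.single_eq_of_ne hj, zero_pow hj0]
  have hAK : coeff (Finsupp.single (Fin.last m) d) fK ≠ 0 := by
    rw [hfK, coeff_map]
    exact fun h => hA0 (hinj (by rw [h, map_zero]))
  have hbK : coeff (Finsupp.single 0 1 + Finsupp.single (Fin.last m) (d - 1)) fK ≠ 0 := by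
    rw [hfK, coeff_map]
    exact fun h => hb (hinj (by rw [h, map_zero]))
  by_cases hfin : ∀ F : MvPolynomial (Fin (m + 1)) K, F ≠ 0 →
      {n : ℕ | eval (fun i : Fin (m + 1) => a (n + i)) F = 0}.Finite
  · right
    intro F hF
    obtain ⟨G, hG0, hG⟩ := Pool.Agent.Helper87.GT.exists_down τ F hF
    exact (hfin G hG0).subset fun n hn => hG _ hn
  · left
    -- the archimedean places
    have harch : ∀ σ : K →+* ℂ, ∃ B : ℝ, ∀ k, ‖σ (a k)‖ ≤ B := by
      intro σ
      have h1 : ∀ t : Fin (m + 1) → ℂ, (∀ i, ‖t i‖ ≤ 1) → t (Fin.last m) = 1 →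
          (ComplexEmbedding.IsReal σ → ∀ i, (t i).im = 0) →
            eval t (MvPolynomial.map σ (homogeneousComponent d fK)) ≠ 0 := by
        intro t ht1 ht2 ht3
        have h2 := hface σ t ht1 ht2 ht3
        have h3 : MvPolynomial.map σ (homogeneousComponent d fK) =
            MvPolynomial.map (σ.comp (algebraMap (𝓞 K) K)) (homogeneousComponent d f) := by
          ext s
          rw [coeff_map, coeff_homogeneousComponent, coeff_map (σ.comp _),
            coeff_homogeneousComponent]
          split_ifs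
          · rw [hfK, coeff_map]
            rfl
          · simp
        rw [h3]
        exact h2
      rcases arch_alt hd hfK' hAK hbK σ h1 a haK with h2 | h2
      · exact absurd h2 hfin
      · exact h2
    choose B hB using harch
    -- integrality
    have hintK : ∀ k, IsIntegral ℤ ((c : K) * a k) := by
      intro k
      have h1 : (c : K) * a k ∈ (algebraMap (𝓞 K) K).range := by
        refine HeightOneSpectrum.mem_integers_of_valuation_le_one K _ fun v => ?_
        rw [← adic_le_one_iff, map_mul]
        set w := NumberField.HeightOneSpectrum.adicAbv K v with hw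
        have hwn : IsNonarchimedean w := NumberField.HeightOneSpectrum.isNonarchimedean_adicAbv K v
        have hcoef : ∀ s, w (coeff s fK) ≤ 1 := by
          intro s
          rw [hfK, coeff_map]
          exact adic_int v _
        have hcw : w (c : K) ≤ 1 := adic_int v c
        have hcw0 : 0 < w (c : K) := by
          refine w.pos ?_
          intro h
          exact hc0 (hinj (by rw [map_zero]; exact h))
        have hini : ∀ j, j ≤ m → w (c : K) * w (a j) ≤ 1 := by
          intro j hj
          obtain ⟨b, hb'⟩ := hint j hj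
          rw [← map_mul, ← hb']
          exact adic_int v b
        by_cases hvA : coeff (Finsupp.single (Fin.last m) d) f ∈ v.asIdeal
        · have hcv : c ∉ v.asIdeal := by
            intro h
            obtain ⟨u, u', huu⟩ := hc
            apply v.isPrime.ne_top
            rw [Ideal.eq_top_iff_one, ← huu]
            exact Ideal.add_mem _ (Ideal.mul_mem_left _ _ h) (Ideal.mul_mem_left _ _ hvA)
          have hc1 : w (c : K) = 1 := (adic_eq_one v c).2 hcv
          rw [hc1, one_mul]
          refine nonarch_integral w hwn hcoef a haK (fun j hj => ?_) k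
          have := hini j hj
          rwa [hc1, one_mul] at this
        · have htop : w (coeff (Finsupp.single (Fin.last m) d) fK) = 1 := by
            rw [hfK, coeff_map]
            exact (adic_eq_one v _).2 hvA
          have hinv : 1 ≤ (w (c : K))⁻¹ := (one_le_inv₀ hcw0).2 hcw
          rcases nonarch_alt hd hfK' hbK w hwn hcoef htop a haK (w (c : K))⁻¹ hinv
            (fun j hj => by
              rw [← one_div, le_div_iff₀ hcw0, mul_comm]
              exact hini j hj) with h2 | h2
          · exact absurd h2 hfin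
          · have h3 := h2 k
            calc w (c : K) * w (a k) ≤ w (c : K) * (w (c : K))⁻¹ :=
                  mul_le_mul_of_nonneg_left h3 hcw0.le
              _ = 1 := mul_inv_cancel₀ hcw0.ne'
      obtain ⟨r, hr⟩ := h1
      rw [← hr]
      exact r.isIntegral_coe
    -- finitely many values
    have hfinr : (Set.range a).Finite := by
      set B' : ℝ := ∑ σ : K →+* ℂ, ‖σ (c : K)‖ * |B σ| with hB'
      have h1 := Embeddings.finite_of_norm_le K ℂ B'
      have h2 : Set.range (fun k => (c : K) * a k) ⊆
          {x : K | IsIntegral ℤ x ∧ ∀ φ : K →+* ℂ, ‖φ x‖ ≤ B'} := by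
        rintro _ ⟨k, rfl⟩
        refine ⟨hintK k, fun φ => ?_⟩
        rw [map_mul, norm_mul]
        refine le_trans ?_ (Finset.single_le_sum
          (f := fun σ : K →+* ℂ => ‖σ (c : K)‖ * |B σ|) (fun σ _ => by positivity)
          (Finset.mem_univ φ))
        exact mul_le_mul_of_nonneg_left ((hB φ k).trans (le_abs_self _)) (norm_nonneg _)
      have h3 := h1.subset h2
      have h4 : Set.range a ⊆ (fun x => (c : K)⁻¹ * x) '' Set.range (fun k => (c : K) * a k) := by
        rintro _ ⟨k, rfl⟩
        refine ⟨_, ⟨k, rfl⟩, ?_⟩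
        have hc' : (c : K) ≠ 0 := fun h => hc0 (hinj (by rw [map_zero]; exact h))
        dsimp only
        rw [← mul_assoc, inv_mul_cancel₀ hc', one_mul]
      exact (h3.image _).subset h4
    exact periodic_of_finite (fun x => eval x fK) a haK hfinr

end

end Pool.Agent.Helper86.RC
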